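import Pool.Agent.R225.BO.Gap
import Pool.Agent.R225.BO.Next
import Pool.Agent.R225.BO.RHO
import Pool.Agent.R225.BO.CAP
import Pool.Agent.R225.BO.INJ
import Pool.Agent.R225.BO.CHAIN
import Pool.Agent.R225.BO.PATH
import Pool.Agent.R225.BO.CLUS
import Pool.Agent.R225.BO.REC
import Pool.Agent.R225.BO.V1
import Pool.Agent.R225.BO.V
import Pool.Agent.R225.BO.CH
import Pool.Agent.R225.BO.GP
import Pool.Agent.R225.BO.SLAB
import Pool.Agent.R225.BO.MEAS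

set_option autoImplicit false

open MeasureTheory Filter Topology
open Pool.Agent.R225.BO

namespace Pool.Agent.Results.MP_8410f8_pr.StrictlyIncreasing

/-- Random Borsuk graphs `geo α X` (`i ≠ j` joined iff the angle of `X i`, `X j` is `> π - α`),
`X` a sample of `n` independent uniform points of `S^d` (`law d n`), `d ≥ 1`, `k ≥ 1`.

1. For every `C` there is `η > 0` such that for all `ε, δ > 0` and all large `n`, all
`n ≤ N ≤ (1+η) n`, all `α` with `α^d n ≤ C` and all `k ≥ 1`: if `G(n,α)` is `k`-colourable with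
probability `≥ ε` then `G(N,α)` is `(k+1)`-colourable with probability `≥ 1 - δ`.
2. If `P(χ > k) → 0` whenever `α(n) < (1-ε) c n^{-1/d}`, then there is `η > 0` such that
`P(χ > k+1) → 0` for every sequence `α(n) ≤ (1+η) c n^{-1/d}`.
3. If `c n^{-1/d}` is a sharp threshold for `χ > k` and `c' n^{-1/d}` one for `χ > k+1`, then
`c < c'`. -/
theorem result :
    (∀ (d : ℕ) (C : ℝ), 1 ≤ d → 0 < C → ∃ η : ℝ, 0 < η ∧ ∀ ε δ : ℝ, 0 < ε → 0 < δ →
      ∃ n₀ : ℕ, ∀ n ≥ n₀, ∀ N : ℕ, n ≤ N → (N : ℝ) ≤ (1 + η) * n → ∀ α : ℝ, 0 < α →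
      α ^ d * n ≤ C → ∀ k : ℕ, 1 ≤ k → ε ≤ (law d n).real {X | (geo α X).Colorable k} →
        1 - δ ≤ (law d N).real {X | (geo α X).Colorable (k + 1)}) ∧
    (∀ (d k : ℕ) (c : ℝ), 1 ≤ d → 1 ≤ k → 0 < c →
      (∀ ε : ℝ, 0 < ε → ∀ α : ℕ → ℝ, (∀ n, 0 < α n) →
        (∀ n : ℕ, 1 ≤ n → α n < (1 - ε) * c * (n : ℝ) ^ (-(1 / d : ℝ))) →
        Tendsto (fun n => law d n {X | ¬ (geo (α n) X).Colorable k}) atTop (𝓝 0)) →
      ∃ η : ℝ, 0 < η ∧ ∀ α : ℕ → ℝ, (∀ n, 0 < α n) →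
        (∀ n : ℕ, 1 ≤ n → α n ≤ (1 + η) * c * (n : ℝ) ^ (-(1 / d : ℝ))) →
        Tendsto (fun n => law d n {X | ¬ (geo (α n) X).Colorable (k + 1)}) atTop (𝓝 0)) ∧
    (∀ (d k : ℕ) (c c' : ℝ), 1 ≤ d → 1 ≤ k → 0 < c → 0 < c' →
      Sharp d k c → Sharp d (k + 1) c' → c < c') := by
  have hGAP : S_GAP := s_gap (s_ch (s_v s_v1)) s_rho s_cap (s_path s_inj s_chain) s_clus s_rec
    (s_marg s_inj) s_gp s_slab s_meas
  exact ⟨hGAP, fun d k c hd hk hc hL => s_next hGAP s_meas d k c hd hk hc hL, s_ord' hGAP s_meas⟩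

end Pool.Agent.Results.MP_8410f8_pr.StrictlyIncreasing
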